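import Pool.Agent.Run7.h350.EP.Iface

set_option autoImplicit false

namespace Pool.Agent.Run7.h894.EP

open Pool.Agent.Run7.h350.EP MeasureTheory Set Topology Filter

theorem gsq_nonneg {m : ℕ} (w : X m → ℝ) (x : X m) : 0 ≤ gsq w x :=
  Finset.sum_nonneg fun _ _ => sq_nonneg _

theorem continuous_gsq {m : ℕ} {w : X m → ℝ} (hw : ContDiff ℝ 1 w) : Continuous (gsq w) := by
  unfold gsq pd
  have h : Continuous (fderiv ℝ w) := hw.continuous_fderiv (by norm_num)
  fun_prop

theorem gsq_eq_zero {m : ℕ} {w : X m → ℝ} {x : X m} (hx : x ∉ tsupport w) : gsq w x = 0 := by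
  have h0 : fderiv ℝ w x = 0 := by
    have := (notMem_tsupport_iff_eventuallyEq).1 hx
    rw [this.fderiv_eq]
    simp
  unfold gsq pd
  simp [h0]

theorem tsupport_gsq {m : ℕ} {w : X m → ℝ} : Function.support (gsq w) ⊆ tsupport w := by
  intro x hx
  by_contra h
  exact hx (gsq_eq_zero h)

/-- `v² gsq w` is integrable -/
theorem integrable_weight {m : ℕ} {Ω : Set (X m)} {v w : X m → ℝ} (hΩ : IsOpen Ω)
    (hv : ContinuousOn v Ω) (hw : Test1 Ω w) :
    Integrable (fun x => (v x) ^ 2 * gsq w x) := by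
  obtain ⟨hw1, hwc, hws⟩ := hw
  have hc : Continuous (fun x => (v x) ^ 2 * gsq w x) := by
    rw [continuous_iff_continuousAt]
    intro x
    by_cases hx : x ∈ tsupport w
    · have hvx : ContinuousAt v x := hv.continuousAt (hΩ.mem_nhds (hws hx))
      exact (hvx.pow 2).mul (continuous_gsq hw1).continuousAt
    · have hev : (fun x => (v x) ^ 2 * gsq w x) =ᶠ[𝓝 x] fun _ => 0 := by
        have hop : IsOpen (tsupport w)ᶜ := (isClosed_tsupport w).isOpen_compl
        filter_upwards [hop.mem_nhds hx] with y hy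
        rw [gsq_eq_zero hy, mul_zero]
      exact hev.continuousAt
  refine hc.integrable_of_hasCompactSupport ?_
  refine HasCompactSupport.of_support_subset_isCompact hwc ?_
  intro x hx
  by_contra h
  exact hx (by simp only; rw [gsq_eq_zero h, mul_zero])

/-- the passage from one ball to another inside a large ball -/
theorem step (hTL : S_TL) {m : ℕ} {Ω : Set (X m)} {v : X m → ℝ} (hΩ : IsOpen Ω)
    (hv : ContinuousOn v Ω) (hpos : ∀ x ∈ Ω, 0 < v x) {x₀ x₁ x₂ : X m} {r ρ : ℝ} (hρ : 0 < ρ)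
    (hρr : ρ ≤ r) (hball : Metric.closedBall x₀ (3 * r) ⊆ Ω) (h1 : x₁ ∈ Metric.ball x₀ r)
    (h2 : x₂ ∈ Metric.ball x₀ r) {C : ℝ}
    (hC : ∀ w : X m → ℝ, Test1 Ω w →
      ∫ x in Metric.ball x₁ ρ, w x ^ 2 ≤ C * ∫ x, (v x) ^ 2 * gsq w x) :
    ∃ C' : ℝ, Metric.ball x₂ ρ ⊆ Ω ∧ ∀ w : X m → ℝ, Test1 Ω w →
      ∫ x in Metric.ball x₂ ρ, w x ^ 2 ≤ C' * ∫ x, (v x) ^ 2 * gsq w x := by
  have hr : 0 < r := hρ.trans_le hρr
  obtain ⟨c, hc, hcv⟩ : ∃ c : ℝ, 0 < c ∧ ∀ x ∈ Metric.closedBall x₀ (3 * r), c ≤ v x := by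
    have hne : (Metric.closedBall x₀ (3 * r)).Nonempty := ⟨x₀, by
      simp only [Metric.mem_closedBall, dist_self]; linarith⟩
    obtain ⟨z, hz, hmin⟩ := (isCompact_closedBall x₀ (3 * r)).exists_isMinOn hne (hv.mono hball)
    exact ⟨v z, hpos z (hball hz), fun x hx => hmin hx⟩
  have hsub : ∀ t ∈ Icc (0 : ℝ) 1, ∀ x ∈ Metric.ball x₁ ρ,
      x + t • (x₂ - x₁) ∈ Metric.closedBall x₀ (3 * r) := by
    intro t ht x hx
    rw [Metric.mem_closedBall]
    rw [Metric.mem_ball] at hx h1 h2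
    rw [dist_eq_norm] at hx h1 h2 ⊢
    have e : x + t • (x₂ - x₁) - x₀ = (x - x₁) + ((1 - t) • (x₁ - x₀) + t • (x₂ - x₀)) := by
      rw [smul_sub, smul_sub, sub_smul, sub_smul, smul_sub, one_smul, one_smul]
      abel
    rw [e]
    have b1 : ‖(1 - t) • (x₁ - x₀)‖ ≤ (1 - t) * r := by
      rw [norm_smul, Real.norm_eq_abs, abs_of_nonneg (by linarith [ht.2])]
      exact mul_le_mul_of_nonneg_left h1.le (by linarith [ht.2])
    have b2 : ‖t • (x₂ - x₀)‖ ≤ t * r := by
      rw [norm_smul, Real.norm_eq_abs, abs_of_nonneg ht.1]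
      exact mul_le_mul_of_nonneg_left h2.le ht.1
    have := norm_add_le (x - x₁) ((1 - t) • (x₁ - x₀) + t • (x₂ - x₀))
    have := norm_add_le ((1 - t) • (x₁ - x₀)) (t • (x₂ - x₀))
    nlinarith
  refine ⟨2 * C + 2 * (‖x₂ - x₁‖ ^ 2 / c ^ 2), ?_, ?_⟩
  · intro y hy
    apply hball
    have := hsub 1 (by simp) (y - (x₂ - x₁)) (by
      rw [Metric.mem_ball, dist_eq_norm] at hy ⊢
      have : y - (x₂ - x₁) - x₁ = y - x₂ := by abel
      rw [this]; exact hy)
    rw [one_smul, sub_add_cancel] at this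
    exact this
  · intro w hw
    have hI := integrable_weight hΩ hv hw
    have hIn : 0 ≤ ∫ x, (v x) ^ 2 * gsq w x :=
      integral_nonneg fun x => mul_nonneg (sq_nonneg _) (gsq_nonneg w x)
    have hwc : Continuous w := hw.1.continuous
    have hw2 : ∀ s : Set (X m), IntegrableOn (fun x => w x ^ 2) s := fun s =>
      (Continuous.integrable_of_hasCompactSupport (by fun_prop)
        (hw.2.1.comp_left (g := fun z : ℝ => z ^ 2) (by simp))).integrableOn
    have htr : ∫ x in Metric.ball x₂ ρ, w x ^ 2 =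
        ∫ x in Metric.ball x₁ ρ, w (x + (x₂ - x₁)) ^ 2 := by
      have hmp : MeasurePreserving (fun x : X m => x + (x₂ - x₁)) volume volume :=
        measurePreserving_add_right volume (x₂ - x₁)
      have hme : MeasurableEmbedding (fun x : X m => x + (x₂ - x₁)) :=
        (MeasurableEquiv.addRight (x₂ - x₁)).measurableEmbedding
      have := hmp.setIntegral_preimage_emb hme (fun x => w x ^ 2) (Metric.ball x₂ ρ)
      rw [← this]
      congr 2
      ext x
      simp only [mem_preimage, Metric.mem_ball, dist_eq_norm]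
      constructor
      · intro h
        have e : x - x₁ = x + (x₂ - x₁) - x₂ := by abel
        rwa [e]
      · intro h
        have e : x + (x₂ - x₁) - x₂ = x - x₁ := by abel
        rwa [e]
    have hw2' : IntegrableOn (fun x => w (x + (x₂ - x₁)) ^ 2) (Metric.ball x₁ ρ) := by
      have : Integrable (fun x => w x ^ 2) (volume : Measure (X m)) := by
        simpa using hw2 univ
      exact (this.comp_add_right (x₂ - x₁)).integrableOn
    have hbd : ∫ x in Metric.ball x₁ ρ, w (x + (x₂ - x₁)) ^ 2 ≤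
        2 * (∫ x in Metric.ball x₁ ρ, w x ^ 2) +
        2 * ∫ x in Metric.ball x₁ ρ, (w (x + (x₂ - x₁)) - w x) ^ 2 := by
      have hd : IntegrableOn (fun x => (w (x + (x₂ - x₁)) - w x) ^ 2) (Metric.ball x₁ ρ) := by
        refine IntegrableOn.mono_set (t := Metric.closedBall x₁ ρ) ?_ Metric.ball_subset_closedBall
        refine ContinuousOn.integrableOn_compact (isCompact_closedBall _ _) ?_
        refine Continuous.continuousOn ?_
        fun_prop
      rw [← integral_const_mul, ← integral_const_mul, ← integral_add]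
      · refine setIntegral_mono hw2' ?_ ?_
        · exact ((hw2 _).const_mul 2).add (hd.const_mul 2)
        · intro x
          simp only
          nlinarith [sq_nonneg (w (x + (x₂ - x₁)) - w x - w x)]
      · exact (hw2 _).const_mul 2
      · exact hd.const_mul 2
    have hTL' := hTL m w hw.1 hw.2.1 (x₂ - x₁) (Metric.ball x₁ ρ) (Metric.closedBall x₀ (3 * r))
      Metric.isOpen_ball.measurableSet Metric.isClosed_closedBall.measurableSet
      (fun x hx t ht => hsub t ht x hx)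
    have hG : ∫ x in Metric.closedBall x₀ (3 * r), gsq w x ≤
        (1 / c ^ 2) * ∫ x, (v x) ^ 2 * gsq w x := by
      have hgi : IntegrableOn (gsq w) (Metric.closedBall x₀ (3 * r)) :=
        (continuous_gsq hw.1).continuousOn.integrableOn_compact (isCompact_closedBall _ _)
      calc ∫ x in Metric.closedBall x₀ (3 * r), gsq w x
          ≤ ∫ x in Metric.closedBall x₀ (3 * r), (1 / c ^ 2) * ((v x) ^ 2 * gsq w x) := by
            refine setIntegral_mono_on hgi (hI.const_mul _).integrableOn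
              Metric.isClosed_closedBall.measurableSet ?_
            intro x hx
            have h1 : c ^ 2 ≤ (v x) ^ 2 := by
              have := hcv x hx
              nlinarith
            have h2 : 0 ≤ gsq w x := gsq_nonneg w x
            have h3 : 0 < c ^ 2 := by positivity
            rw [← mul_assoc, one_div, inv_mul_eq_div]
            have h4 : 1 ≤ v x ^ 2 / c ^ 2 := (one_le_div h3).2 h1
            nlinarith
        _ = (1 / c ^ 2) * ∫ x in Metric.closedBall x₀ (3 * r), (v x) ^ 2 * gsq w x := by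
            rw [integral_const_mul]
        _ ≤ (1 / c ^ 2) * ∫ x, (v x) ^ 2 * gsq w x := by
            refine mul_le_mul_of_nonneg_left ?_ (by positivity)
            refine setIntegral_le_integral hI ?_
            filter_upwards with x
            exact mul_nonneg (sq_nonneg _) (gsq_nonneg w x)
    rw [htr]
    have hC' := hC w hw
    have h5 : ‖x₂ - x₁‖ ^ 2 * ∫ x in Metric.closedBall x₀ (3 * r), gsq w x ≤
        ‖x₂ - x₁‖ ^ 2 * ((1 / c ^ 2) * ∫ x, (v x) ^ 2 * gsq w x) :=
      mul_le_mul_of_nonneg_left hG (by positivity)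
    have e : (2 * C + 2 * (‖x₂ - x₁‖ ^ 2 / c ^ 2)) * (∫ x, (v x) ^ 2 * gsq w x) =
        2 * (C * ∫ x, (v x) ^ 2 * gsq w x) +
        2 * (‖x₂ - x₁‖ ^ 2 * ((1 / c ^ 2) * ∫ x, (v x) ^ 2 * gsq w x)) := by ring
    rw [e]
    linarith

theorem t_REACH : S_TL → S_REACH := by
  intro hTL m Ω v hΩ hconn hv hpos hex K hK hKΩ
  obtain ⟨p, hp, ρ₀, hρ₀, C₀, hb₀, hC₀⟩ := hex
  -- the property of a point
  let P : X m → Prop := fun x => ∃ ρ > 0, ∃ C : ℝ, Metric.ball x ρ ⊆ Ω ∧
    ∀ w : X m → ℝ, Test1 Ω w → ∫ y in Metric.ball x ρ, w y ^ 2 ≤ C * ∫ y, (v y) ^ 2 * gsq w y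
  have hw2 : ∀ (w : X m → ℝ), Test1 Ω w → ∀ s : Set (X m), IntegrableOn (fun x => w x ^ 2) s := by
    intro w hw s
    have hwc : Continuous w := hw.1.continuous
    exact (Continuous.integrable_of_hasCompactSupport (by fun_prop)
        (hw.2.1.comp_left (g := fun z : ℝ => z ^ 2) (by simp))).integrableOn
  have hshrink : ∀ x ρ C, (∀ w : X m → ℝ, Test1 Ω w →
      ∫ y in Metric.ball x ρ, w y ^ 2 ≤ C * ∫ y, (v y) ^ 2 * gsq w y) → ∀ ρ', ρ' ≤ ρ →
      ∀ w : X m → ℝ, Test1 Ω w →
        ∫ y in Metric.ball x ρ', w y ^ 2 ≤ C * ∫ y, (v y) ^ 2 * gsq w y := by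
    intro x ρ C h ρ' hρ' w hw
    refine le_trans ?_ (h w hw)
    refine setIntegral_mono_set (hw2 w hw _) ?_ ?_
    · filter_upwards with y
      exact sq_nonneg _
    · exact (Metric.ball_subset_ball hρ').eventuallyLE
  have hstep : ∀ x₀ r, 0 < r → Metric.closedBall x₀ (3 * r) ⊆ Ω → ∀ x₁ ∈ Metric.ball x₀ r,
      ∀ x₂ ∈ Metric.ball x₀ r, P x₁ → P x₂ := by
    rintro x₀ r hr hball x₁ h1 x₂ h2 ⟨ρ, hρ, C, hb, hC⟩
    have hmin : 0 < min ρ r := lt_min hρ hr
    obtain ⟨C', hb', hC'⟩ := step hTL hΩ hv hpos hmin (min_le_right _ _) hball h1 h2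
      (hshrink x₁ ρ C hC (min ρ r) (min_le_left _ _))
    exact ⟨min ρ r, hmin, C', hb', hC'⟩
  have hgood : ∀ x ∈ Ω, ∃ r > 0, Metric.closedBall x (3 * r) ⊆ Ω := by
    intro x hx
    obtain ⟨s, hs, hs'⟩ := Metric.isOpen_iff.1 hΩ x hx
    refine ⟨s / 4, by positivity, ?_⟩
    intro y hy
    apply hs'
    rw [Metric.mem_closedBall] at hy
    rw [Metric.mem_ball]
    linarith
  have hall : ∀ x ∈ Ω, P x := by
    have hS : IsOpen {x ∈ Ω | P x} := by
      rw [Metric.isOpen_iff]
      rintro x ⟨hx, hPx⟩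
      obtain ⟨r, hr, hball⟩ := hgood x hx
      refine ⟨r, hr, ?_⟩
      intro y hy
      refine ⟨hball (Metric.ball_subset_closedBall (Metric.ball_subset_ball (by linarith) hy)), ?_⟩
      exact hstep x r hr hball x (Metric.mem_ball_self hr) y hy hPx
    have hS' : IsOpen {x ∈ Ω | ¬ P x} := by
      rw [Metric.isOpen_iff]
      rintro x ⟨hx, hPx⟩
      obtain ⟨r, hr, hball⟩ := hgood x hx
      refine ⟨r, hr, ?_⟩
      intro y hy
      refine ⟨hball (Metric.ball_subset_closedBall (Metric.ball_subset_ball (by linarith) hy)), ?_⟩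
      intro hPy
      exact hPx (hstep x r hr hball y hy x (Metric.mem_ball_self hr) hPy)
    by_contra hcon
    push Not at hcon
    obtain ⟨q, hq, hPq⟩ := hcon
    obtain ⟨z, hz, hz1, hz2⟩ := hconn {x ∈ Ω | P x} {x ∈ Ω | ¬ P x} hS hS'
      (fun x hx => by
        by_cases h : P x
        · exact Or.inl ⟨hx, h⟩
        · exact Or.inr ⟨hx, h⟩)
      ⟨p, hp, hp, ρ₀, hρ₀, C₀, hb₀, hC₀⟩ ⟨q, hq, hq, hPq⟩
    exact hz2.2 hz1.2
  -- compactness
  choose! ρ hρ C hb hC using hall
  obtain ⟨t, htK, hcov⟩ := hK.elim_nhds_subcover (fun x => Metric.ball x (ρ x))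
    (fun x hx => Metric.ball_mem_nhds x (hρ x (hKΩ hx)))
  refine ⟨∑ x ∈ t, C x, ?_⟩
  intro w hw
  have hle : ∫ x in K, w x ^ 2 ≤ ∫ x in ⋃ i ∈ t, Metric.ball i (ρ i), w x ^ 2 := by
    refine setIntegral_mono_set (hw2 w hw _) ?_ hcov.eventuallyLE
    filter_upwards with y
    exact sq_nonneg _
  have hsum : ∀ s : Finset (X m), ∫ x in ⋃ i ∈ s, Metric.ball i (ρ i), w x ^ 2 ≤
      ∑ i ∈ s, ∫ x in Metric.ball i (ρ i), w x ^ 2 := by
    classical
    intro s
    induction s using Finset.induction_on with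
    | empty => simp
    | insert a s ha ih =>
      rw [Finset.sum_insert ha, Finset.set_biUnion_insert]
      have hI := hw2 w hw
      have hu : (∫ x in Metric.ball a (ρ a) ∪ ⋃ i ∈ s, Metric.ball i (ρ i), w x ^ 2) ≤
          (∫ x in Metric.ball a (ρ a), w x ^ 2) +
          ∫ x in ⋃ i ∈ s, Metric.ball i (ρ i), w x ^ 2 := by
        rw [← integral_add_measure (hI _) (hI _)]
        exact integral_mono_measure (Measure.restrict_union_le _ _)
          (ae_of_all _ fun y => sq_nonneg _) (Integrable.add_measure (hI _) (hI _))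
      exact hu.trans (add_le_add le_rfl ih)
  rw [Finset.sum_mul]
  refine hle.trans ((hsum t).trans (Finset.sum_le_sum fun i hi => ?_))
  exact hC i (hKΩ (htK i hi)) w hw

end Pool.Agent.Run7.h894.EP
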