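import Pool.Agent.Run7.h350.EP.Iface

set_option autoImplicit false

namespace Pool.Agent.Run7.h894.EP

open Pool.Agent.Run7.h350.EP MeasureTheory Set Topology Filter

theorem ev_last (m : ℕ) : ev m (Fin.last m) = 1 := by
  simp [ev]

theorem ev_castSucc (m : ℕ) (i : Fin m) : ev m i.castSucc = 0 := by
  simp [ev, Fin.castSucc_ne_last]

theorem hor_add_ev {m : ℕ} (x : X m) (s : ℝ) : hor (x + s • ev m) = hor x := by
  ext i
  simp [hor, ev_castSucc]

theorem hor_sub_ev {m : ℕ} (x : X m) (s : ℝ) : hor (x - s • ev m) = hor x := by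
  ext i
  simp [hor, ev_castSucc]

theorem last_add_ev {m : ℕ} (x : X m) (s : ℝ) :
    (x + s • ev m) (Fin.last m) = x (Fin.last m) + s := by
  simp [ev_last]

theorem last_sub_ev {m : ℕ} (x : X m) (s : ℝ) :
    (x - s • ev m) (Fin.last m) = x (Fin.last m) - s := by
  simp [ev_last]

theorem continuous_hor {m : ℕ} : Continuous (hor : X m → EuclideanSpace ℝ (Fin m)) := by
  unfold hor
  fun_prop

/-- the point with horizontal part `a` and height `s` -/
noncomputable def mk {m : ℕ} (a : EuclideanSpace ℝ (Fin m)) (s : ℝ) : X m :=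
  WithLp.toLp 2 (Fin.snoc (α := fun _ => ℝ) (fun i => a i) s)

theorem hor_mk {m : ℕ} (a : EuclideanSpace ℝ (Fin m)) (s : ℝ) : hor (mk a s) = a := by
  ext i
  simp [hor, mk]

theorem last_mk {m : ℕ} (a : EuclideanSpace ℝ (Fin m)) (s : ℝ) : mk a s (Fin.last m) = s := by
  simp [mk]

theorem mk_eta {m : ℕ} (x : X m) : mk (hor x) (x (Fin.last m)) = x := by
  ext i
  refine Fin.lastCases ?_ (fun j => ?_) i
  · simp [mk]
  · simp [mk, hor]

theorem continuous_mk {m : ℕ} :
    Continuous (fun q : EuclideanSpace ℝ (Fin m) × ℝ => mk q.1 q.2) := by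
  unfold mk
  refine (PiLp.continuous_toLp 2 _).comp ?_
  refine continuous_pi fun i => ?_
  refine Fin.lastCases ?_ (fun j => ?_) i
  · simpa using continuous_snd
  · simp only [Fin.snoc_castSucc]
    fun_prop

theorem t_TOP : S_TOP := by
  intro m φ hφ
  have hlast : Continuous (fun x : X m => x (Fin.last m)) := by fun_prop
  have hφh : Continuous (fun x : X m => φ (hor x)) := hφ.comp continuous_hor
  have hopen : IsOpen (epigraph φ) := isOpen_lt hφh hlast
  have hup : ∀ x ∈ epigraph φ, ∀ s : ℝ, 0 ≤ s → x + s • ev m ∈ epigraph φ := by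
    intro x hx s hs
    simp only [epigraph, mem_setOf_eq] at hx ⊢
    rw [hor_add_ev, last_add_ev]
    linarith
  refine ⟨hopen, ?_, hup, ?_, ?_⟩
  · have himg : epigraph φ =
        (fun q : EuclideanSpace ℝ (Fin m) × ℝ => mk q.1 (φ q.1 + q.2)) '' (univ ×ˢ Ioi 0) := by
      ext x
      constructor
      · intro hx
        refine ⟨(hor x, x (Fin.last m) - φ (hor x)), ⟨mem_univ _, ?_⟩, ?_⟩
        · simp only [epigraph, mem_setOf_eq] at hx
          simpa using hx
        · simp only [add_sub_cancel]
          exact mk_eta x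
      · rintro ⟨⟨a, s⟩, ⟨-, hs⟩, rfl⟩
        simp only [epigraph, mem_setOf_eq, hor_mk, last_mk]
        have : (0 : ℝ) < s := hs
        linarith
    rw [himg]
    refine (isPreconnected_univ.prod isPreconnected_Ioi).image _ ?_
    refine Continuous.continuousOn ?_
    exact continuous_mk.comp (continuous_fst.prodMk ((hφ.comp continuous_fst).add continuous_snd))
  · intro p hp
    have hpos : ∀ s : ℝ, 0 < s → p + s • ev m ∈ epigraph φ := by
      intro s hs
      simp only [epigraph, mem_setOf_eq]
      rw [hor_add_ev, last_add_ev, hp]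
      linarith
    refine ⟨?_, hpos⟩
    rw [hopen.frontier_eq]
    refine ⟨?_, ?_⟩
    · have ht : Tendsto (fun s : ℝ => p + s • ev m) (𝓝[>] 0) (𝓝 p) := by
        have hc : Continuous (fun s : ℝ => p + s • ev m) := by fun_prop
        have h0 := hc.tendsto 0
        simp only [zero_smul, add_zero] at h0
        exact h0.mono_left nhdsWithin_le_nhds
      refine mem_closure_of_tendsto ht ?_
      filter_upwards [self_mem_nhdsWithin] with s hs
      exact hpos s hs
    · simp only [epigraph, mem_setOf_eq, not_lt]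
      exact hp.le
  · intro h hh R
    refine ⟨Metric.closedBall 0 R ∩ {x | φ (hor x) + h ≤ x (Fin.last m)}, ?_, ?_, ?_⟩
    · exact (isCompact_closedBall 0 R).inter_right
        (isClosed_le (hφh.add continuous_const) hlast)
    · rintro x ⟨-, hx⟩
      simp only [epigraph, mem_setOf_eq] at hx ⊢
      linarith
    · intro x hx hx'
      refine ⟨hx, ?_⟩
      simp only [epigraph, mem_setOf_eq, hor_sub_ev, last_sub_ev] at hx' ⊢
      linarith

end Pool.Agent.Run7.h894.EP
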